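import Pool.Agent.Q296.AR.Ph

/-! JOB Arc. -/

set_option autoImplicit false

namespace Pool.Agent.Q296.AR

open Finset Filter Topology MeasureTheory ProbabilityTheory
open Pool.Agent.Q74.AR (Phi S_Arc)

lemma int_ioi (b : ℝ) (hb : 0 < b) : ∫ x in Set.Ioi (0:ℝ), x * Real.exp (-b * x ^ 2) = 1 / (2 * b) := by
  have h := integral_rpow_mul_exp_neg_mul_rpow (p := 2) (q := 1) (b := b) (by norm_num) (by norm_num) hb
  have h1 : ∫ x in Set.Ioi (0:ℝ), x ^ (1:ℝ) * Real.exp (-b * x ^ (2:ℝ)) =
      ∫ x in Set.Ioi (0:ℝ), x * Real.exp (-b * x ^ 2) := by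
    apply setIntegral_congr_fun measurableSet_Ioi
    intro x _
    simp
  rw [← h1, h]
  norm_num
  rw [Real.rpow_neg_one]

lemma int_val (c : ℝ) : ∫ g, 2 * |g| * phi (c * |g|) ∂(gaussianReal 0 1) = 2 / Real.pi * (1 / (1 + c ^ 2)) := by
  rw [integral_gaussianReal_eq_integral_smul one_ne_zero, phi_eq]
  have h1 : ∀ x : ℝ, phi x • (2 * |x| * phi (c * |x|)) =
      (fun u : ℝ => (1 / Real.pi) * (u * Real.exp (-((1 + c ^ 2) / 2) * u ^ 2))) |x| := by
    intro x
    simp only [phi, smul_eq_mul, sq_abs]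
    have h2 : (√(2 * Real.pi))⁻¹ * (√(2 * Real.pi))⁻¹ = 1 / (2 * Real.pi) := by
      rw [← mul_inv, Real.mul_self_sqrt (by positivity), one_div]
    have h3 : Real.exp (-((1 + c ^ 2) / 2) * x ^ 2) =
        Real.exp (-x ^ 2 / 2) * Real.exp (-(c * |x|) ^ 2 / 2) := by
      rw [← Real.exp_add]
      congr 1
      rw [mul_pow, sq_abs]; ring
    rw [h3]
    have h4 : (√(2 * Real.pi))⁻¹ * Real.exp (-x ^ 2 / 2) * (2 * |x| * ((√(2 * Real.pi))⁻¹ * Real.exp (-(c * |x|) ^ 2 / 2)))
      = ((√(2 * Real.pi))⁻¹ * (√(2 * Real.pi))⁻¹) * (2 * |x| * (Real.exp (-x ^ 2 / 2) * Real.exp (-(c * |x|) ^ 2 / 2))) := by ring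
    rw [h4, h2]
    have := Real.pi_pos
    field_simp
  rw [integral_congr_ae (Eventually.of_forall h1),
    integral_comp_abs (f := fun u : ℝ => (1 / Real.pi) * (u * Real.exp (-((1 + c ^ 2) / 2) * u ^ 2))), integral_const_mul,
    int_ioi _ (by positivity)]
  have := Real.pi_pos
  have h5 : (1 + c ^ 2) ≠ 0 := by positivity
  field_simp

lemma int_abs : Integrable (fun g : ℝ => 2 * |g|) (gaussianReal 0 1) := by
  have h := (memLp_id_gaussianReal (μ := 0) (v := 1) 1)
  have h2 : Integrable (fun g : ℝ => g) (gaussianReal 0 1) := by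
    exact h.integrable (by simp)
  exact h2.abs.const_mul 2

lemma der (c : ℝ) : HasDerivAt (fun c : ℝ => ∫ g, (2 * Phi (c * |g|) - 1) ∂(gaussianReal 0 1))
    (2 / Real.pi * (1 / (1 + c ^ 2))) c := by
  rw [← int_val c]
  refine (hasDerivAt_integral_of_dominated_loc_of_deriv_le (F := fun c g => 2 * Phi (c * |g|) - 1)
    (F' := fun c g => 2 * |g| * phi (c * |g|)) (bound := fun g => 2 * |g|) (s := Set.univ)
    Filter.univ_mem ?_ ?_ ?_ ?_ int_abs ?_).2
  · refine Eventually.of_forall fun x => ?_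
    have : Continuous fun g : ℝ => 2 * Phi (x * |g|) - 1 := by
      have := Phi_cont
      fun_prop
    exact this.aestronglyMeasurable
  · have h1 : Continuous fun g : ℝ => 2 * Phi (c * |g|) - 1 := by
      have := Phi_cont
      fun_prop
    refine Integrable.of_bound h1.aestronglyMeasurable 1 (Eventually.of_forall fun g => ?_)
    rw [Real.norm_eq_abs, abs_le]
    constructor
    · linarith [Phi_nonneg (c * |g|)]
    · linarith [Phi_le_one (c * |g|)]
  · have h1 : Continuous fun g : ℝ => 2 * |g| * phi (c * |g|) := by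
      have := phi_cont
      fun_prop
    exact h1.aestronglyMeasurable
  · refine Eventually.of_forall fun g x _ => ?_
    rw [Real.norm_eq_abs, abs_of_nonneg (mul_nonneg (by positivity) (phi_nonneg _))]
    have := phi_le_one (x * |g|)
    have h2 : 0 ≤ 2 * |g| := by positivity
    nlinarith
  · refine Eventually.of_forall fun g x _ => ?_
    have h1 : HasDerivAt (fun x : ℝ => x * |g|) |g| x := by
      simpa using (hasDerivAt_id x).mul_const |g|
    have h2 := (Phi_deriv (x * |g|)).comp x h1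
    have h3 := (h2.const_mul 2).sub_const 1
    convert! h3 using 1
    ring

theorem arc : S_Arc := by
  intro c _
  set F : ℝ → ℝ := fun c => ∫ g, (2 * Phi (c * |g|) - 1) ∂(gaussianReal 0 1) with hF
  have hd : ∀ c, HasDerivAt (fun c => F c - 2 / Real.pi * Real.arctan c) 0 c := by
    intro c
    have h1 := (der c).sub ((Real.hasDerivAt_arctan c).const_mul (2 / Real.pi))
    rw [sub_self] at h1
    exact h1
  have hc := is_const_of_deriv_eq_zero (fun c => (hd c).differentiableAt) (fun c => (hd c).deriv) c 0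
  simp only [hF] at hc
  rw [Real.arctan_zero] at hc
  have h0 : ∫ g, (2 * Phi (0 * |g|) - 1) ∂(gaussianReal 0 1) = 0 := by
    simp [Phi_zero]
  rw [h0] at hc
  linarith

end Pool.Agent.Q296.AR
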