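import Pool.Agent.Q74.AR.Def

/-! Basic facts on the distribution function of the standard normal law. -/

set_option autoImplicit false

namespace Pool.Agent.Q296.AR

open Finset Filter Topology MeasureTheory ProbabilityTheory
open Pool.Agent.Q74.AR (Phi)

/-- the standard normal density -/
noncomputable def phi (x : ℝ) : ℝ := (√(2 * Real.pi))⁻¹ * Real.exp (-x ^ 2 / 2)

lemma phi_eq : gaussianPDFReal 0 1 = phi := by
  funext x
  simp [gaussianPDFReal, phi]

lemma phi_cont : Continuous phi := by
  unfold phi; fun_prop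

lemma phi_nonneg (x : ℝ) : 0 ≤ phi x := by unfold phi; positivity

lemma phi_le_one (x : ℝ) : phi x ≤ 1 := by
  unfold phi
  have h1 : (√(2 * Real.pi))⁻¹ ≤ 1 := by
    apply inv_le_one_of_one_le₀
    rw [Real.one_le_sqrt]
    nlinarith [Real.pi_gt_three]
  have h2 : Real.exp (-x ^ 2 / 2) ≤ 1 := by
    apply Real.exp_le_one_iff.mpr
    have := sq_nonneg x
    linarith
  calc (√(2 * Real.pi))⁻¹ * Real.exp (-x ^ 2 / 2) ≤ 1 * 1 := by gcongr
    _ = 1 := by norm_num

lemma phi_int : Integrable phi := phi_eq ▸ integrable_gaussianPDFReal 0 1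

lemma Phi_eq (x : ℝ) : Phi x = ∫ t in Set.Iic x, phi t := by
  unfold Phi
  rw [cdf_eq_real, Measure.real, gaussianReal_apply_eq_integral 0 one_ne_zero, phi_eq,
    ENNReal.toReal_ofReal]
  exact setIntegral_nonneg measurableSet_Iic fun t _ => phi_nonneg t

lemma Phi_sub (x y : ℝ) : Phi y - Phi x = ∫ t in x..y, phi t := by
  rw [Phi_eq, Phi_eq, intervalIntegral.integral_Iic_sub_Iic phi_int.integrableOn phi_int.integrableOn]

lemma Phi_deriv (x : ℝ) : HasDerivAt Phi (phi x) x := by
  have h : Phi = fun y => (∫ t in (0:ℝ)..y, phi t) + Phi 0 := by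
    funext y
    rw [← Phi_sub]; ring
  rw [h]
  apply HasDerivAt.add_const
  exact intervalIntegral.integral_hasDerivAt_right (phi_cont.intervalIntegrable _ _)
    (phi_cont.stronglyMeasurableAtFilter _ _) phi_cont.continuousAt

lemma Phi_cont : Continuous Phi := continuous_iff_continuousAt.mpr fun x => (Phi_deriv x).continuousAt

lemma Phi_mono : Monotone Phi := monotone_cdf _

lemma Phi_nonneg (x : ℝ) : 0 ≤ Phi x := cdf_nonneg _ _

lemma Phi_le_one (x : ℝ) : Phi x ≤ 1 := cdf_le_one _ _

lemma Phi_neg (x : ℝ) : Phi (-x) = 1 - Phi x := by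
  have hP : IsProbabilityMeasure (gaussianReal 0 1) := inferInstance
  have hna : NullSingletonClass (gaussianReal 0 1) := nullSingletonClass_gaussianReal one_ne_zero
  unfold Phi
  rw [cdf_eq_real, cdf_eq_real]
  have h1 : (gaussianReal 0 1).real (Set.Iic (-x)) = (gaussianReal 0 1).real (Set.Ici x) := by
    have h2 := @gaussianReal_map_neg 0 1
    rw [neg_zero] at h2
    have h3 : ((gaussianReal 0 1).map (fun y => -y)).real (Set.Iic (-x)) = (gaussianReal 0 1).real (Set.Ici x) := by
      rw [map_measureReal_apply (by fun_prop) measurableSet_Iic]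
      congr 1
      ext y
      simp
    rw [← h3, h2]
  rw [h1]
  have h4 : (gaussianReal 0 1).real (Set.Ici x) = (gaussianReal 0 1).real (Set.Ioi x) := by
    rw [Measure.real, Measure.real, Ioi_ae_eq_Ici.measure_eq]
  rw [h4]
  have h5 : Set.Ioi x = (Set.Iic x)ᶜ := by ext y; simp
  rw [h5, probReal_compl_eq_one_sub measurableSet_Iic]

lemma Phi_zero : Phi 0 = 1 / 2 := by
  have := Phi_neg 0
  rw [neg_zero] at this
  linarith

lemma Phi_top : Tendsto Phi atTop (𝓝 1) := tendsto_cdf_atTop _

lemma Phi_bot : Tendsto Phi atBot (𝓝 0) := tendsto_cdf_atBot _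

end Pool.Agent.Q296.AR
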