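import Pool.Agent.Q296.AR.Rw

/-! JOB Q. -/

set_option autoImplicit false

namespace Pool.Agent.Q296.AR

open Finset Filter Topology MeasureTheory ProbabilityTheory
open Pool.Agent.Q74.AR (Phi S_Q)
open Pool.Agent.Q158.Pair (q)

lemma r_mono (v : ℕ) : Monotone (r v) := fun a b h => by
  unfold r
  exact measureReal_mono (Set.Iic_subset_Iic.mpr h)

lemma r_nonneg (v : ℕ) (a : ℝ) : 0 ≤ r v a := measureReal_nonneg

lemma r_le_one (v : ℕ) (a : ℝ) : r v a ≤ 1 := measureReal_le_one

lemma Phi_surj (y : ℝ) (h0 : 0 < y) (h1 : y < 1) : ∃ x, Phi x = y := by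
  obtain ⟨a, ha⟩ := ((Phi_bot.eventually (gt_mem_nhds h0)).exists)
  obtain ⟨b, hb⟩ := ((Phi_top.eventually (lt_mem_nhds h1)).exists)
  have := mem_range_of_exists_le_of_exists_ge Phi_cont ⟨a, ha.le⟩ ⟨b, hb.le⟩
  exact this

/-- Pólya's theorem for the simple random walk. -/
lemma unif (ε : ℝ) (hε : 0 < ε) : ∃ v₀ : ℕ, ∀ v : ℕ, v₀ ≤ v → ∀ x : ℝ, |r v (√(v:ℝ) * x) - Phi x| ≤ ε := by
  obtain ⟨K, hK⟩ := exists_nat_gt (2 / ε)
  have hK0 : (0:ℝ) < K := lt_trans (by positivity) hK
  have hKn : 0 < K := by exact_mod_cast hK0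
  have hKe : 2 / (K:ℝ) < ε := by
    rw [div_lt_iff₀ hK0]; rw [div_lt_iff₀ hε] at hK; linarith
  have hx : ∀ j : ℕ, ∃ x : ℝ, (0 < j → j < K → Phi x = j / K) := by
    intro j
    by_cases h : 0 < j ∧ j < K
    · obtain ⟨x, hx⟩ := Phi_surj (j / K) (by have : (0:ℝ) < j := by exact_mod_cast h.1
                                             positivity)
        (by rw [div_lt_one hK0]; exact_mod_cast h.2)
      exact ⟨x, fun _ _ => hx⟩
    · exact ⟨0, fun h1 h2 => absurd ⟨h1, h2⟩ h⟩
  choose X hX using hx
  have hev : ∀ᶠ v : ℕ in atTop, ∀ j ∈ range K, |r v (√(v:ℝ) * X j) - Phi (X j)| < 1 / K := by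
    rw [eventually_all_finset]
    intro j _
    have h := (r_lim (X j)).sub_const (Phi (X j))
    rw [sub_self] at h
    have h2 := h.abs
    rw [abs_zero] at h2
    exact h2.eventually (gt_mem_nhds (by positivity))
  obtain ⟨v₀, hv₀⟩ := eventually_atTop.mp hev
  refine ⟨v₀, fun v hv x => ?_⟩
  have H := hv₀ v hv
  set j := ⌊(K:ℝ) * Phi x⌋₊ with hj
  have hPx := Phi_nonneg x
  have hPx1 := Phi_le_one x
  have j1 : (j:ℝ) ≤ K * Phi x := Nat.floor_le (by positivity)
  have j2 : (K:ℝ) * Phi x < j + 1 := Nat.lt_floor_add_one _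
  have hs : 0 ≤ √(v:ℝ) := Real.sqrt_nonneg _
  have e2 : 2 / (K:ℝ) = 2 * (1 / K) := by ring
  have hK1 : (K:ℝ) * (1 / K) = 1 := by field_simp
  set κ : ℝ := 1 / K with hκ
  have hκ0 : 0 < κ := by positivity
  -- bounds of Phi x
  have p1 : (j:ℝ) * κ ≤ Phi x := by
    have := mul_le_mul_of_nonneg_right j1 hκ0.le
    have e : (K:ℝ) * Phi x * κ = Phi x * (K * κ) := by ring
    rw [e, hK1, mul_one] at this
    exact this
  have p2 : Phi x < (j + 1) * κ := by
    have := mul_lt_mul_of_pos_right j2 hκ0
    have e : (K:ℝ) * Phi x * κ = Phi x * (K * κ) := by ring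
    rw [e, hK1, mul_one] at this
    exact this
  rw [abs_le]
  constructor
  · -- lower bound
    by_cases hj0 : 0 < j
    · by_cases hjK : j < K
      · have hPj := hX j hj0 hjK
        have hPj' : Phi (X j) = j * κ := by rw [hPj, hκ]; ring
        have hle : X j ≤ x ∨ Phi x = j * κ := by
          by_contra hcon
          push Not at hcon
          have := Phi_mono hcon.1.le
          rw [hPj'] at this
          exact hcon.2 (le_antisymm this p1)
        have hb := abs_lt.mp (H j (mem_range.mpr hjK))
        rcases hle with hle | heq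
        · have hm := r_mono v (mul_le_mul_of_nonneg_left hle hs)
          linarith
        · -- Phi x = j κ; use j - 1
          by_cases hj1 : 0 < j - 1
          · have hPj1 := hX (j - 1) hj1 (by omega)
            have hPj1' : Phi (X (j - 1)) = (j - 1) * κ := by
              rw [hPj1, hκ, Nat.cast_sub (by omega)]; push_cast; ring
            have hlt : X (j - 1) ≤ x := by
              by_contra hcon
              push Not at hcon
              have := Phi_mono hcon.le
              rw [hPj1', heq] at this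
              nlinarith
            have hb1 := abs_lt.mp (H (j - 1) (mem_range.mpr (by omega)))
            have hm := r_mono v (mul_le_mul_of_nonneg_left hlt hs)
            linarith
          · have : j = 1 := by omega
            have hj1' : (j:ℝ) = 1 := by exact_mod_cast this
            rw [hj1'] at heq
            linarith [r_nonneg v (√(v:ℝ) * x)]
      · -- j ≥ K : Phi x = 1, impossible unless; use K - 1
        by_cases hK2 : 1 < K
        · have hPK := hX (K - 1) (by omega) (by omega)
          have hPK' : Phi (X (K - 1)) = 1 - κ := by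
            rw [hPK, hκ, Nat.cast_sub (by omega)]; push_cast; field_simp
          have hjK' : (K:ℝ) ≤ j := by exact_mod_cast (not_lt.mp hjK)
          have hP1 : 1 ≤ Phi x := by
            calc (1:ℝ) = K * κ := hK1.symm
              _ ≤ j * κ := by gcongr
              _ ≤ Phi x := p1
          have hlt : X (K - 1) ≤ x := by
            by_contra hcon
            push Not at hcon
            have := Phi_mono hcon.le
            rw [hPK'] at this
            linarith
          have hb1 := abs_lt.mp (H (K - 1) (mem_range.mpr (by omega)))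
          have hm := r_mono v (mul_le_mul_of_nonneg_left hlt hs)
          linarith
        · have : K = 1 := by omega
          have hk1 : κ = 1 := by rw [hκ, this]; norm_num
          linarith [r_nonneg v (√(v:ℝ) * x)]
    · have : j = 0 := by omega
      have hj0' : (j:ℝ) = 0 := by exact_mod_cast this
      rw [hj0'] at p2
      linarith [r_nonneg v (√(v:ℝ) * x)]
  · -- upper bound
    by_cases hjK : j + 1 < K
    · have hPj := hX (j + 1) (by omega) hjK
      have hPj' : Phi (X (j + 1)) = (j + 1) * κ := by rw [hPj, hκ]; push_cast; ring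
      have hle : x ≤ X (j + 1) := by
        by_contra hcon
        push Not at hcon
        have := Phi_mono hcon.le
        rw [hPj'] at this
        linarith
      have hb := abs_lt.mp (H (j + 1) (mem_range.mpr hjK))
      have hm := r_mono v (mul_le_mul_of_nonneg_left hle hs)
      linarith
    · have hjK' : (K:ℝ) ≤ j + 1 := by exact_mod_cast (not_lt.mp hjK)
      have hP1 : 1 - κ ≤ Phi x := by
        have : (K:ℝ) * κ ≤ (j + 1) * κ := by gcongr
        linarith
      linarith [r_le_one v (√(v:ℝ) * x)]

theorem q_job : S_Q := by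
  intro ε hε
  obtain ⟨v₀, hv₀⟩ := unif (ε / 2) (by positivity)
  refine ⟨max v₀ 1, fun v hv a => ?_⟩
  have hv1 : v₀ ≤ v := le_trans (le_max_left _ _) hv
  have hvp : 0 < v := lt_of_lt_of_le one_pos (le_trans (le_max_right _ _) hv)
  have hs : 0 < √(v:ℝ) := Real.sqrt_pos.mpr (by exact_mod_cast hvp)
  have h1 := hv₀ v hv1 (a / √(v:ℝ))
  have h2 := hv₀ v hv1 (-(a / √(v:ℝ)))
  have e1 : √(v:ℝ) * (a / √(v:ℝ)) = a := by field_simp
  have e2 : √(v:ℝ) * (-(a / √(v:ℝ))) = -a := by rw [mul_neg, e1]
  rw [e1] at h1
  rw [e2, Phi_neg] at h2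
  rw [q_eq]
  rw [abs_le] at h1 h2 ⊢
  constructor <;> linarith [h1.1, h1.2, h2.1, h2.2]

end Pool.Agent.Q296.AR
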