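import Pool.Agent.Q296.AR.Ph

/-! The simple random walk: law, characteristic function, central limit theorem. -/

set_option autoImplicit false

namespace Pool.Agent.Q296.AR

open Finset Filter Topology MeasureTheory ProbabilityTheory
open scoped ENNReal
open Pool.Agent.Q74.AR (Phi)
open Pool.Agent.Q158.Pair (q)

/-- law of the simple random walk at time `v` -/
noncomputable def M : ℕ → Measure ℝ
  | 0 => Measure.dirac 0
  | v + 1 => (2⁻¹ : ℝ≥0∞) • (M v).map (· + 1) + (2⁻¹ : ℝ≥0∞) • (M v).map (· + (-1))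

instance M_prob (v : ℕ) : IsProbabilityMeasure (M v) := by
  induction v with
  | zero => unfold M; infer_instance
  | succ n ih =>
    constructor
    have h1 : IsProbabilityMeasure ((M n).map (· + 1)) := Measure.isProbabilityMeasure_map (by fun_prop)
    have h2 : IsProbabilityMeasure ((M n).map (· + (-1))) := Measure.isProbabilityMeasure_map (by fun_prop)
    simp only [M, Measure.coe_add, Measure.coe_smul, Pi.add_apply, Pi.smul_apply, measure_univ, smul_eq_mul, mul_one]
    exact ENNReal.inv_two_add_inv_two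

/-- distribution function -/
noncomputable def r (v : ℕ) (a : ℝ) : ℝ := (M v).real (Set.Iic a)

lemma r_zero (a : ℝ) : r 0 a = if 0 ≤ a then 1 else 0 := by
  unfold r M
  rw [Measure.real, Measure.dirac_apply' _ measurableSet_Iic]
  by_cases h : 0 ≤ a <;> simp [h]

lemma r_succ (v : ℕ) (a : ℝ) : r (v + 1) a = (r v (a - 1) + r v (a + 1)) / 2 := by
  unfold r
  conv_lhs => rw [M]
  have h1 : IsProbabilityMeasure ((M v).map (· + 1)) := Measure.isProbabilityMeasure_map (by fun_prop)
  have h2 : IsProbabilityMeasure ((M v).map (· + (-1))) := Measure.isProbabilityMeasure_map (by fun_prop)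
  have e1 : ((2⁻¹ : ℝ≥0∞) • (M v).map (· + 1)).real (Set.Iic a) = (M v).real (Set.Iic (a - 1)) / 2 := by
    rw [measureReal_ennreal_smul_apply, map_measureReal_apply (by fun_prop) measurableSet_Iic]
    have : (fun x : ℝ => x + 1) ⁻¹' Set.Iic a = Set.Iic (a - 1) := by
      ext y; simp only [Set.mem_preimage, Set.mem_Iic]; constructor <;> intro h <;> linarith
    rw [this, ENNReal.toReal_inv]
    simp; ring
  have e2 : ((2⁻¹ : ℝ≥0∞) • (M v).map (· + (-1))).real (Set.Iic a) = (M v).real (Set.Iic (a + 1)) / 2 := by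
    rw [measureReal_ennreal_smul_apply, map_measureReal_apply (by fun_prop) measurableSet_Iic]
    have : (fun x : ℝ => x + (-1)) ⁻¹' Set.Iic a = Set.Iic (a + 1) := by
      ext y; simp only [Set.mem_preimage, Set.mem_Iic]; constructor <;> intro h <;> linarith
    rw [this, ENNReal.toReal_inv]
    simp; ring
  have f1 : ((2⁻¹ : ℝ≥0∞) • (M v).map (· + 1)) (Set.Iic a) ≠ ⊤ := by
    rw [Measure.smul_apply]
    exact ENNReal.mul_ne_top (by simp) (measure_ne_top _ _)
  have f2 : ((2⁻¹ : ℝ≥0∞) • (M v).map (· + (-1))) (Set.Iic a) ≠ ⊤ := by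
    rw [Measure.smul_apply]
    exact ENNReal.mul_ne_top (by simp) (measure_ne_top _ _)
  rw [measureReal_add_apply f1 f2, e1, e2]
  ring

lemma q_eq (v a : ℕ) : q v a = r v a - r v (-a) := by
  induction v generalizing a with
  | zero =>
    rw [r_zero, r_zero]
    rcases Nat.eq_zero_or_pos a with rfl | ha
    · simp [q]
    · have : (0:ℝ) < a := by exact_mod_cast ha
      rw [if_pos this.le, if_neg (by linarith)]
      simp [q, ha.ne']
  | succ n ih =>
    rcases a with _ | a
    · simp [q]
    · rw [Pool.Agent.Q158.Pair.q_succ, ih, ih, r_succ, r_succ]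
      push_cast
      have e1 : ((a:ℝ) + 1 - 1) = a := by ring
      have e2 : ((a:ℝ) + 1 + 1) = a + 2 := by ring
      have e3 : (-((a:ℝ) + 1) - 1) = -(a + 2) := by ring
      have e4 : (-((a:ℝ) + 1) + 1) = -a := by ring
      rw [e1, e2, e3, e4]
      ring

/-- the cosine -/
noncomputable def Cc (t : ℝ) : ℂ := (Complex.exp (t * Complex.I) + Complex.exp (-t * Complex.I)) / 2

lemma char_M (v : ℕ) (t : ℝ) : charFun (M v) t = Cc t ^ v := by
  induction v with
  | zero => simp [M]
  | succ n ih =>
    have h1 : IsProbabilityMeasure ((M n).map (· + 1)) := Measure.isProbabilityMeasure_map (by fun_prop)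
    have h2 : IsProbabilityMeasure ((M n).map (· + (-1))) := Measure.isProbabilityMeasure_map (by fun_prop)
    have i1 : ∀ μ : Measure ℝ, IsProbabilityMeasure μ →
        Integrable (fun x : ℝ => Complex.exp ((inner ℝ x t : ℝ) * Complex.I)) μ := by
      intro μ hμ
      refine Integrable.of_bound (by fun_prop) 1 (Eventually.of_forall fun x => ?_)
      rw [Complex.norm_exp_ofReal_mul_I]
    have e1 := charFun_map_add_const (μ := M n) (1:ℝ) t
    have e2 := charFun_map_add_const (μ := M n) (-1:ℝ) t
    rw [ih] at e1 e2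
    conv_lhs => rw [M, charFun_apply]
    rw [integral_add_measure ((i1 _ h1).smul_measure (by simp)) ((i1 _ h2).smul_measure (by simp)),
      integral_smul_measure, integral_smul_measure, ← charFun_apply, ← charFun_apply, e1, e2]
    unfold Cc
    simp only [ENNReal.toReal_inv, ENNReal.toReal_ofNat, Complex.real_smul, Complex.ofReal_inv, Complex.ofReal_ofNat]
    have a1 : (inner ℝ (1:ℝ) t : ℝ) = t := by simp
    have a2 : (inner ℝ (-1:ℝ) t : ℝ) = -t := by simp
    rw [a1, a2]
    push_cast
    ring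

lemma int_M1 (f : ℝ → ℝ) (hf : Continuous f) : ∫ x, f x ∂(M 1) = (f 1 + f (-1)) / 2 := by
  have hM : M 1 = (2⁻¹ : ℝ≥0∞) • Measure.dirac 1 + (2⁻¹ : ℝ≥0∞) • Measure.dirac (-1) := by
    simp only [M]
    rw [Measure.map_dirac' (f := fun x : ℝ => x + 1) (by fun_prop),
      Measure.map_dirac' (f := fun x : ℝ => x + (-1)) (by fun_prop)]
    norm_num
  rw [hM, integral_add_measure, integral_smul_measure, integral_smul_measure, integral_dirac, integral_dirac]
  · simp; ring
  · exact (integrable_dirac (by simp)).smul_measure (by simp)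
  · exact (integrable_dirac (by simp)).smul_measure (by simp)

/-- the law of the normalized walk -/
noncomputable def N (v : ℕ) : ProbabilityMeasure ℝ :=
  ⟨(M v).map (fun x => (√(v:ℝ))⁻¹ * x), Measure.isProbabilityMeasure_map (by fun_prop)⟩

/-- the standard normal law -/
noncomputable def Gg : ProbabilityMeasure ℝ := ⟨gaussianReal 0 1, inferInstance⟩

lemma Gg_coe : (Gg : Measure ℝ) = gaussianReal 0 1 := rfl

lemma clt : Tendsto N atTop (𝓝 Gg) := by
  rw [ProbabilityMeasure.tendsto_iff_tendsto_charFun]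
  intro t
  have h := tendsto_charFun_inv_sqrt_mul_pow (P := M 1) (X := id) (by fun_prop)
    (by rw [show (∫ x, id x ∂(M 1)) = ∫ x, x ∂(M 1) from rfl, int_M1 _ (by fun_prop)]; norm_num)
    (by
      rw [show (∫ x, (id ^ 2 : ℝ → ℝ) x ∂(M 1)) = ∫ x, x ^ 2 ∂(M 1) from rfl, int_M1 _ (by fun_prop)]
      norm_num) t
  have e1 : charFun (gaussianReal 0 1) t = Complex.exp (-t ^ 2 / 2) := by
    rw [charFun_gaussianReal]
    congr 1
    push_cast
    ring
  have e2 : ∀ n : ℕ, charFun (N n : Measure ℝ) t = (charFun ((M 1).map id) ((√(n:ℝ))⁻¹ * t)) ^ n := by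
    intro n
    rw [Measure.map_id, char_M 1, pow_one]
    show charFun ((M n).map (fun x => (√(n:ℝ))⁻¹ * x)) t = _
    rw [charFun_map_mul, char_M]
  rw [Gg_coe, e1]
  simp only [e2]
  exact h

lemma r_lim (x : ℝ) : Tendsto (fun v : ℕ => r v (√(v:ℝ) * x)) atTop (𝓝 (Phi x)) := by
  have hna : NullSingletonClass (gaussianReal 0 1) := nullSingletonClass_gaussianReal one_ne_zero
  have h := ProbabilityMeasure.tendsto_measure_of_null_frontier_of_tendsto' clt (E := Set.Iic x) (by
    rw [frontier_Iic, Gg_coe]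
    exact measure_singleton x)
  have h2 := (ENNReal.tendsto_toReal (measure_ne_top _ _)).comp h
  have h3 : Phi x = (Gg : Measure ℝ).real (Set.Iic x) := by
    unfold Phi
    rw [cdf_eq_real, Gg_coe]
  rw [h3]
  refine h2.congr' ?_
  filter_upwards [eventually_gt_atTop 0] with v hv
  have hs : 0 < √(v:ℝ) := Real.sqrt_pos.mpr (by exact_mod_cast hv)
  show ((M v).map (fun x => (√(v:ℝ))⁻¹ * x)).real (Set.Iic x) = r v (√(v:ℝ) * x)
  rw [map_measureReal_apply (by fun_prop) measurableSet_Iic]
  unfold r
  congr 1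
  ext y
  simp only [Set.mem_preimage, Set.mem_Iic]
  rw [inv_mul_le_iff₀ hs]

end Pool.Agent.Q296.AR
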